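import Pool.Agent.Work.MP_223b32_tl_helper28.TAU

/-!
# FA: a Frobenius automorphism at the place `ρ`
-/

namespace Pool.Agent.Work.TL

open Polynomial

namespace FA

open TAU

abbrev GG : Type := QQ ≃ₐ[ℚ] QQ

noncomputable instance instAct : MulSemiringAction GG AA where
  smul σ x := restr σ x
  one_smul _ := up_inj rfl
  mul_smul _ _ _ := up_inj rfl
  smul_zero σ := map_zero (restr σ)
  smul_add σ x y := map_add (restr σ) x y
  smul_one σ := map_one (restr σ)
  smul_mul σ x y := map_mul (restr σ) x y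

lemma smul_def (σ : GG) (x : AA) : σ • x = restr σ x := rfl

lemma up_smul (σ : GG) (x : AA) : up (σ • x) = σ (up x) := rfl

instance instNormal : Normal ℚ QQ := by
  have h := algebraicClosure.isAlgClosure ℚ ℂ
  have h2 : IsAlgClosed TAU.QQ := h.isAlgClosed
  have h3 : Algebra.IsAlgebraic ℚ TAU.QQ := algebraicClosure.isAlgebraic ℚ ℂ
  exact { toIsAlgebraic := h3, splits' := fun _ => IsAlgClosed.splits _ }

instance instGalois : IsGalois ℚ QQ where

instance instTop : TopologicalSpace AA := ⊥

instance instDisc : DiscreteTopology AA := ⟨rfl⟩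

instance instCont : ContinuousSMul GG AA := by
  rw [continuousSMul_iff_stabilizer_isOpen]
  intro x
  have h1 : (MulAction.stabilizer GG x : Set GG) =
      ((IntermediateField.adjoin ℚ {up x}).fixingSubgroup : Set GG) := by
    ext σ
    simp only [SetLike.mem_coe, MulAction.mem_stabilizer_iff]
    rw [IntermediateField.mem_fixingSubgroup_iff]
    constructor
    · intro h y hy
      have h2 : σ (up x) = up x := by rw [← up_smul, h]
      have h3 : IntermediateField.adjoin ℚ {up x} ≤
          IntermediateField.fixedField (Subgroup.zpowers σ) := by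
        rw [IntermediateField.adjoin_le_iff, Set.singleton_subset_iff]
        rw [SetLike.mem_coe, IntermediateField.mem_fixedField_iff]
        intro τ hτ
        obtain ⟨k, rfl⟩ := Subgroup.mem_zpowers_iff.1 hτ
        have h4 : σ ∈ MulAction.stabilizer GG (up x) := h2
        exact (MulAction.stabilizer GG (up x)).zpow_mem h4 k
      have h5 := h3 hy
      rw [IntermediateField.mem_fixedField_iff] at h5
      exact h5 σ (Subgroup.mem_zpowers σ)
    · intro h
      apply up_inj
      rw [up_smul]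
      exact h _ (IntermediateField.mem_adjoin_simple_self ℚ (up x))
  rw [h1]
  have hfd : FiniteDimensional ℚ (IntermediateField.adjoin ℚ {up x}) :=
    IntermediateField.adjoin.finiteDimensional (Algebra.IsIntegral.isIntegral _)
  exact IntermediateField.fixingSubgroup_isOpen _

instance instInv : Algebra.IsInvariant ℤ AA GG where
  isInvariant := by
    intro x hx
    have h1 : ∀ σ : GG, σ (up x) = up x := fun σ => by rw [← up_smul, hx σ]
    have h2 : up x ∈ Set.range (algebraMap ℚ QQ) := by
      rw [InfiniteGalois.mem_range_algebraMap_iff_fixed]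
      exact h1
    obtain ⟨r, hr⟩ := h2
    have h3 : (x : ℂ) = (r : ℂ) := by
      have h4 := congrArg (fun z : QQ => (z : ℂ)) hr
      exact h4.symm
    have h5 : IsIntegral ℤ r := by
      have h6 : IsIntegral ℤ ((algebraMap ℚ ℂ) r) := by
        have h7 : (algebraMap ℚ ℂ) r = (x : ℂ) := by
          rw [h3]
          rfl
        rw [h7]
        exact x.2
      exact (isIntegral_algebraMap_iff (algebraMap ℚ ℂ).injective).1 h6
    obtain ⟨m, hm⟩ := IsIntegrallyClosed.isIntegral_iff.1 h5
    refine ⟨m, Subtype.ext ?_⟩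
    rw [h3, ← hm]
    simp

end FA

open FA in
theorem stmt_FA : Stmt_FA := by
  intro ρ
  set Q : Ideal AA := RingHom.ker ρ with hQ
  have hQp : Q.IsPrime := RingHom.ker_isPrime ρ
  have hchar : CharP (AA ⧸ Q) 2 :=
    (RingHom.charP_iff (RingHom.kerLift ρ) (RingHom.kerLift_injective ρ) 2).2 inferInstance
  have hexp : ExpChar (AA ⧸ Q) 2 := ExpChar.prime Nat.prime_two
  have hinj : Function.Injective (frobenius (AA ⧸ Q) 2) := frobenius_inj _ _
  have hsurj : Function.Surjective (frobenius (AA ⧸ Q) 2) := by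
    intro y
    obtain ⟨x, rfl⟩ := Ideal.Quotient.mk_surjective y
    obtain ⟨k, hk, hkx⟩ : ∃ k : ℕ, 0 < k ∧ ρ x ^ 2 ^ k = ρ x := by
      have hint : IsIntegral (ZMod 2) (ρ x) := Algebra.IsIntegral.isIntegral _
      have hfd : FiniteDimensional (ZMod 2) (IntermediateField.adjoin (ZMod 2) {ρ x}) :=
        IntermediateField.adjoin.finiteDimensional hint
      have hfin : Finite (IntermediateField.adjoin (ZMod 2) {ρ x}) := Module.finite_of_finite (ZMod 2)
      let _ : Fintype (IntermediateField.adjoin (ZMod 2) {ρ x}) := Fintype.ofFinite _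
      have hmem := IntermediateField.mem_adjoin_simple_self (ZMod 2) (ρ x)
      have hcard : Fintype.card (IntermediateField.adjoin (ZMod 2) {ρ x}) =
          2 ^ Module.finrank (ZMod 2) (IntermediateField.adjoin (ZMod 2) {ρ x}) := by
        rw [Module.card_eq_pow_finrank (K := ZMod 2), ZMod.card]
      refine ⟨Module.finrank (ZMod 2) (IntermediateField.adjoin (ZMod 2) {ρ x}),
        Module.finrank_pos, ?_⟩
      have h1 := FiniteField.pow_card (⟨ρ x, hmem⟩ : IntermediateField.adjoin (ZMod 2) {ρ x})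
      rw [hcard] at h1
      exact congrArg Subtype.val h1
    refine ⟨Ideal.Quotient.mk Q (x ^ 2 ^ (k - 1)), ?_⟩
    apply RingHom.kerLift_injective ρ
    rw [frobenius_def, ← map_pow, ← pow_mul, ← pow_succ, Nat.sub_add_cancel hk]
    show ρ (x ^ 2 ^ k) = ρ x
    rw [map_pow, hkx]
  let P : Ideal ℤ := Q.under ℤ
  have hP : Q.LiesOver P := ⟨rfl⟩
  let fr : (AA ⧸ Q) ≃ₐ[ℤ ⧸ P] (AA ⧸ Q) :=
    AlgEquiv.ofRingEquiv (f := RingEquiv.ofBijective (frobenius (AA ⧸ Q) 2) ⟨hinj, hsurj⟩) (by
      intro y
      obtain ⟨m, rfl⟩ := Ideal.Quotient.mk_surjective y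
      show frobenius (AA ⧸ Q) 2 _ = _
      have h1 : algebraMap (ℤ ⧸ P) (AA ⧸ Q) (Ideal.Quotient.mk P m) = ((m : ℤ) : AA ⧸ Q) := by
        simp
      rw [h1, map_intCast])
  obtain ⟨τ, hτ⟩ := Ideal.Quotient.stabilizerHom_surjective_of_profinite (G := GG) P Q fr
  refine ⟨TAU.restr (τ : GG), fun x => ?_⟩
  have h1 : Ideal.Quotient.mk Q ((τ : GG) • x) = fr (Ideal.Quotient.mk Q x) := by
    rw [← hτ]
    rfl
  have h2 : fr (Ideal.Quotient.mk Q x) = Ideal.Quotient.mk Q (x ^ 2) := by
    have h6 : fr (Ideal.Quotient.mk Q x) = frobenius (AA ⧸ Q) 2 (Ideal.Quotient.mk Q x) := rfl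
    rw [h6, frobenius_def, map_pow]
  rw [h2] at h1
  have h3 := congrArg (RingHom.kerLift ρ) h1
  have h4 : RingHom.kerLift ρ (Ideal.Quotient.mk Q ((τ : GG) • x)) = ρ ((τ : GG) • x) := rfl
  have h5 : RingHom.kerLift ρ (Ideal.Quotient.mk Q (x ^ 2)) = ρ (x ^ 2) := rfl
  rw [h4, h5, map_pow] at h3
  exact h3

end Pool.Agent.Work.TL
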