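import Pool.Agent.Work.MP_223b32_tl.Interface2
import Pool.Agent.Work.MP_223b32_tl_helper59.ALG
import Pool.Agent.Work.MP_223b32_tl_helper59.LAST

/-!
# PSI0 and ALGT
-/

namespace Pool.Agent.Work.TL

open Finset Polynomial Pool.Agent.Work.MP_223b32_ag Pool.Agent.Work.MP_223b32_ag_56
  Pool.Agent.Work.TC

/-- PSI0. -/
theorem stmt_PSI0 : Stmt_PSI0 := by
  intro n hn
  rcases hn with h3 | h5 | h7
  · have he : eta n = -1 := by unfold eta; rw [if_neg (by omega)]
    have hd : d0 n = 2 := by unfold d0; rw [if_neg (by omega), if_pos h3]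
    have ho : oddPart n = n / 2 := by unfold oddPart; rw [if_neg (by omega)]
    have hgodd : Odd (n / 2) := by rw [Nat.odd_iff]; omega
    refine ⟨?_, 1, by rw [ho, one_mul], by rw [ho]; exact hgodd, Or.inl rfl, ?_⟩
    · rw [he, hd]
      unfold DD
      rw [if_neg (by decide), mem_filter, Nat.mem_divisors]
      refine ⟨⟨Dvd.intro (n / 2) rfl, by omega⟩, ?_⟩
      rw [Nat.odd_iff] at hgodd
      omega
    · rw [he, hd, ho]
      refine LAST.psi_eq (n / 2) (n / 2) 1 2 (-1) (Or.inr rfl) hgodd (one_mul _).symm ?_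
      rw [cyclotomic_two, pow_one]
      simp
  · have he : eta n = -1 := by unfold eta; rw [if_neg (by omega)]
    have hd : d0 n = 4 := by unfold d0; rw [if_neg (by omega), if_neg (by omega)]
    have ho : oddPart n = n / 4 := by unfold oddPart; rw [if_pos h5]
    have hg2 : n / 2 = 2 * (n / 4) := by omega
    have hgodd : Odd (n / 4) := by rw [Nat.odd_iff]; omega
    refine ⟨?_, 2, by rw [ho]; exact hg2, by rw [ho]; exact hgodd, Or.inr ⟨rfl, he⟩, ?_⟩
    · rw [he, hd]
      unfold DD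
      rw [if_neg (by decide), mem_filter, Nat.mem_divisors]
      refine ⟨⟨?_, by omega⟩, ?_⟩
      · exact ⟨n / 4, by omega⟩
      · rw [Nat.odd_iff] at hgodd
        omega
    · rw [he, hd, ho]
      refine LAST.psi_eq (n / 2) (n / 4) 2 4 (-1) (Or.inr rfl) hgodd hg2 ?_
      have : cyclotomic (2 ^ 2) ℤ = X ^ 2 + 1 := by
        rw [cyclotomic_prime_pow_eq_geom_sum Nat.prime_two]
        simp [Finset.sum_range_succ, add_comm]
      have h4 : (4 : ℕ) = 2 ^ 2 := by norm_num
      rw [h4, this]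
      simp
  · have he : eta n = 1 := by unfold eta; rw [if_pos h7]
    have hd : d0 n = 1 := by unfold d0; rw [if_pos h7]
    have ho : oddPart n = n / 2 := by unfold oddPart; rw [if_neg (by omega)]
    have hgodd : Odd (n / 2) := by rw [Nat.odd_iff]; omega
    refine ⟨?_, 1, by rw [ho, one_mul], by rw [ho]; exact hgodd, Or.inl rfl, ?_⟩
    · rw [he, hd]
      unfold DD
      rw [if_pos rfl, Nat.mem_divisors]
      refine ⟨one_dvd _, by omega⟩
    · rw [he, hd, ho]
      refine LAST.psi_eq (n / 2) (n / 2) 1 1 1 (Or.inl rfl) hgodd (one_mul _).symm ?_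
      rw [cyclotomic_one, pow_one]
      simp

/-- ALGT. -/
theorem stmt_ALGT (hID : Stmt_ID) (hDIV : Stmt_DIV) (hCYC : Stmt_CYC) (hALG : Stmt_ALG)
    (hBALT : Stmt_BALT) (hPSI0 : Stmt_PSI0) : Stmt_ALGT := by
  intro n g q ρ σ r ζ al be w v horb hn
  by_cases hex : ∃ d ∈ DD g (eta n), d ≠ d0 n ∧ Rel q al (Psi g (eta n) d)
  · exact Or.inl hex
  right
  intro s hs M hM hsM hcase i hi
  rcases hcase with hcard | ⟨hsq, hnq⟩
  · have hg : 1 ≤ g := by
      have h1 := horb.prime.two_le
      have h2 := horb.two_g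
      omega
    have hgn : n / 2 = g := by
      have := horb.two_g
      omega
    push Not at hex
    obtain ⟨I, hI, hsat, hX⟩ := hID n g (eta n) q ρ σ r ζ al be w v horb
    obtain ⟨hc1, hc2, hc3⟩ := hCYC g (eta n) hg (ALG.eta_cases n)
    obtain ⟨hd0, m, hm, hodd, hmm, hpsi⟩ := hPSI0 n hn
    rw [hgn] at hd0 hm hpsi
    have claim1 : ∀ P ∈ I, ∀ d ∈ DD g (eta n), d ≠ d0 n → cyclotomic d ℤ ∣ P := by
      intro P hP d hd hne
      by_contra hnot
      have h1 : cyclotomic d ℤ * Psi g (eta n) d ∈ I := by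
        rw [(hc1 d hd).1]
        exact hX
      have h2 := hDIV I hsat P (Psi g (eta n) d) d (ALG.pos_of_mem hd) h1 hP hnot
      exact hex d hd hne ((hI _).1 h2)
    refine hBALT n g (eta n) q ρ σ r ζ al be w v horb m (oddPart n) hm hodd hmm ?_ s hs M hM hsM
      hcard i hi
    intro P hP
    rw [← hpsi]
    exact hc3 (d0 n) hd0 P fun d hd hne => claim1 P ((hI P).2 hP) d hd hne
  · rcases hALG n g q ρ σ r ζ al be w v horb hn hnq hsq with h | h
    · exact absurd h hex
    · exact h s hs M hM hsM i hi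

end Pool.Agent.Work.TL
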