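import Pool.Agent.Work.MP_223b32_tl.Interface2

/-!
# BALT: if all relations are divisible by the last cofactor, the short ones are balanced
-/

namespace Pool.Agent.Work.TL

open Finset Polynomial Pool.Agent.Work.MP_223b32_ag Pool.Agent.Work.MP_223b32_ag_56
  Pool.Agent.Work.TC

theorem stmt_BALT : Stmt_BALT := by
  classical
  intro n g η q ρ σ r ζ al be w v h m g' hgm hodd hmm hno s hs M hM hrel hshort
  have hq0 : (q : ℂ) ≠ 0 := by
    have : q ≠ 0 := h.odd_q.pos.ne'
    exact_mod_cast this
  have hmul : ∀ i, (al i : ℂ) * (be i : ℂ) = q := by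
    intro i
    have h1 := congrArg (fun x : AA => (x : ℂ)) (h.mul i)
    push_cast at h1
    exact h1
  have hal0 : ∀ i, (al i : ℂ) ≠ 0 := by
    intro i h0
    have h1 := hmul i
    rw [h0, zero_mul] at h1
    exact hq0 h1.symm
  have hbe0 : ∀ i, (be i : ℂ) ≠ 0 := by
    intro i h0
    have h1 := hmul i
    rw [h0, mul_zero] at h1
    exact hq0 h1.symm
  have hinj1 : Set.InjOn (fun i => (al i : ℂ)) (range g : Finset ℕ) := by
    intro i hi j hj hij
    exact (h.inj i (mem_range.1 hi) j (mem_range.1 hj)).1 (Subtype.ext hij)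
  have hinj2 : Set.InjOn (fun i => (be i : ℂ)) (range g : Finset ℕ) := by
    intro i hi j hj hij
    have h1 : (al i : ℂ) = al j := by
      have h2 := hmul i
      have h3 := hmul j
      have h4 : (be i : ℂ) = be j := hij
      rw [h4, ← h3] at h2
      exact mul_right_cancel₀ (hbe0 j) h2
    exact hinj1 hi hj h1
  have hdisj : Disjoint ((range g).image fun i => (al i : ℂ))
      ((range g).image fun i => (be i : ℂ)) := by
    rw [Finset.disjoint_left]
    intro z hz hz'
    obtain ⟨i, hi, rfl⟩ := mem_image.1 hz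
    obtain ⟨j, hj, hij⟩ := mem_image.1 hz'
    exact (h.inj i (mem_range.1 hi) j (mem_range.1 hj)).2 (Subtype.ext hij.symm)
  set Z : Finset ℂ := ((range g).image fun i => (al i : ℂ)) ∪
    ((range g).image fun i => (be i : ℂ)) with hZ
  have hsZ : ∀ z ∈ s, z ∈ Z := by
    intro z hz
    obtain ⟨i, hi, h1 | h1⟩ := hs z hz
    · exact mem_union_left _ (mem_image.2 ⟨i, mem_range.2 hi, h1.symm⟩)
    · exact mem_union_right _ (mem_image.2 ⟨i, mem_range.2 hi, h1.symm⟩)
  set a : ℕ → ℕ := fun i => s.count (al i : ℂ) with ha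
  set b : ℕ → ℕ := fun i => s.count (be i : ℂ) with hb
  have hprod : s.prod = ∏ i ∈ range g, ((al i : ℂ) ^ a i * (be i : ℂ) ^ b i) := by
    rw [prod_multiset_count_of_subset s Z (fun z hz => hsZ z (Multiset.mem_toFinset.1 hz)),
      hZ, prod_union hdisj, prod_image hinj1, prod_image hinj2, prod_mul_distrib]
  have hcard : s.card = ∑ i ∈ range g, (a i + b i) := by
    rw [← Multiset.sum_count_eq_card (s := Z) hsZ, hZ, sum_union hdisj, sum_image hinj1,
      sum_image hinj2, sum_add_distrib]
  set c : ℕ → ℤ := fun i => (a i : ℤ) - (b i : ℤ) with hc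
  set P : ℤ[X] := ∑ i ∈ range g, C (c i) * X ^ i with hP
  have hcoeff : ∀ i < g, P.coeff i = c i := by
    intro i hi
    rw [hP, finsetSum_coeff]
    simp only [coeff_C_mul, coeff_X_pow, mul_ite, mul_one, mul_zero]
    rw [sum_ite_eq, if_pos (mem_range.2 hi)]
  have hdeg : P.degree < (g : ℕ) := by
    rw [degree_lt_iff_coeff_zero]
    intro m hm
    rw [hP, finsetSum_coeff]
    refine sum_eq_zero fun i hi => ?_
    have h1 : i < g := mem_range.1 hi
    rw [coeff_C_mul, coeff_X_pow, if_neg (by omega), mul_zero]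
  have hg : 0 < g := by
    have h1 := h.prime.two_le
    have h2 := h.two_g
    omega
  have hTh : Th q al P = ∏ i ∈ range g, ((al i : ℂ) ^ 2 / q) ^ c i := by
    have h1 : Th q al P = ∏ i ∈ range g, ((al i : ℂ) ^ 2 / q) ^ P.coeff i := by
      rw [Th]
      refine prod_subset ?_ ?_
      · intro i hi
        rw [mem_range]
        have h2 : (i : WithBot ℕ) ≤ P.degree := le_degree_of_mem_supp i hi
        exact_mod_cast h2.trans_lt hdeg
      · intro i _ hi
        rw [notMem_support_iff] at hi
        rw [hi, zpow_zero]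
    rw [h1]
    refine prod_congr rfl fun i hi => ?_
    rw [hcoeff i (mem_range.1 hi)]
  have hTh2 : Th q al P = s.prod ^ 2 / (q : ℂ) ^ s.card := by
    rw [hTh, hprod, hcard, ← prod_pow, ← prod_pow_eq_pow_sum, ← prod_div_distrib]
    refine prod_congr rfl fun i _ => ?_
    have h0 : ((al i : ℂ) ^ 2 / q) ≠ 0 := div_ne_zero (pow_ne_zero _ (hal0 i)) hq0
    have h1 : (be i : ℂ) ^ 2 / q = ((al i : ℂ) ^ 2 / q)⁻¹ := by
      have h2 := hmul i
      rw [inv_div, div_eq_div_iff hq0 (pow_ne_zero _ (hal0 i))]
      rw [← h2]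
      ring
    rw [hc]
    simp only
    rw [zpow_sub₀ h0, zpow_natCast, zpow_natCast, div_eq_mul_inv _ (((al i : ℂ) ^ 2 / q) ^ b i),
      ← inv_pow, ← h1, div_pow, div_pow, div_mul_div_comm, mul_pow, ← pow_mul, ← pow_mul,
      ← pow_mul, ← pow_mul, ← pow_add, mul_comm 2 (a i), mul_comm 2 (b i)]
  have hRel : Rel q al P := by
    refine ⟨M, hM, ?_⟩
    rw [hTh2, div_pow, ← pow_mul, hrel, ← pow_mul, mul_comm s.card M,
      div_self (pow_ne_zero _ hq0)]
  have hg' : 1 ≤ g' := hodd.pos
  have hm1 : 1 ≤ m := by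
    rcases hmm with h1 | ⟨h1, _⟩ <;> omega
  have hη : η = 1 ∨ η = -1 := by
    rcases h.per with h1 | h1
    · exact Or.inl h1.1
    · exact Or.inr h1.1
  have hP0 : P = 0 := by
    by_contra hne
    obtain ⟨Q, hQ⟩ := hno P hRel
    have hQ0 : Q ≠ 0 := by
      rintro rfl
      rw [mul_zero] at hQ
      exact hne hQ
    -- the degree of the cofactor
    have hcoefPsi : ∀ k < g', (Psi0 g' m η).coeff (m * k) = η ^ k := by
      intro k hk
      unfold Psi0
      rw [finsetSum_coeff, sum_eq_single k]
      · rw [coeff_C_mul, coeff_X_pow, if_pos rfl, mul_one]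
      · intro j _ hj
        rw [coeff_C_mul, coeff_X_pow, if_neg, mul_zero]
        intro h1
        exact hj (Nat.eq_of_mul_eq_mul_left (by omega) h1).symm
      · intro h1
        exact absurd (mem_range.2 hk) h1
    have hηk : ∀ k : ℕ, η ^ k ≠ 0 := by
      intro k
      rcases hη with h1 | h1 <;> rw [h1] <;> simp
    have hdegPsi : m * (g' - 1) ≤ (Psi0 g' m η).natDegree := by
      refine le_natDegree_of_ne_zero ?_
      rw [hcoefPsi (g' - 1) (by omega)]
      exact hηk _
    have hPsi0 : Psi0 g' m η ≠ 0 := by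
      intro h1
      have h2 := hcoefPsi 0 (by omega)
      rw [h1, coeff_zero] at h2
      exact hηk 0 h2.symm
    have hndP : P.natDegree < g := by
      rw [← natDegree_lt_iff_degree_lt hne] at hdeg
      exact hdeg
    have hndQ : Q.natDegree < m := by
      have h1 : P.natDegree = (Psi0 g' m η).natDegree + Q.natDegree := by
        rw [hQ, natDegree_mul hPsi0 hQ0]
      have h2 : m * (g' - 1) + m = g := by
        rw [hgm]
        obtain ⟨t, rfl⟩ : ∃ t, g' = t + 1 := ⟨g' - 1, by omega⟩
        simp [Nat.mul_succ]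
      omega
    set i0 := Q.natDegree with hi0
    have hcoefP : ∀ k < g', P.coeff (i0 + m * k) = η ^ k * Q.coeff i0 := by
      intro k hk
      have h1 : P = ∑ j ∈ range g', C (η ^ j) * (X ^ (m * j) * Q) := by
        rw [hQ]
        unfold Psi0
        rw [sum_mul]
        exact sum_congr rfl fun j _ => by ring
      rw [h1, finsetSum_coeff, sum_eq_single k]
      · rw [coeff_C_mul, coeff_X_pow_mul', if_pos (by omega)]
        congr 2
        omega
      · intro j _ hj
        rw [coeff_C_mul, coeff_X_pow_mul']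
        split_ifs with h2
        · have h3 : j < k := by
            by_contra h4
            have h5 : k + 1 ≤ j := by omega
            have h6 : m * (k + 1) ≤ m * j := Nat.mul_le_mul_left _ h5
            rw [Nat.mul_succ] at h6
            omega
          have h4 : m * (j + 1) ≤ m * k := Nat.mul_le_mul_left _ h3
          rw [Nat.mul_succ] at h4
          rw [coeff_eq_zero_of_natDegree_lt (by omega), mul_zero]
        · rw [mul_zero]
      · intro h2
        exact absurd (mem_range.2 hk) h2
    have hlt : ∀ k < g', i0 + m * k < g := by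
      intro k hk
      have h1 : m * (k + 1) ≤ m * g' := Nat.mul_le_mul_left _ hk
      rw [Nat.mul_succ] at h1
      omega
    have hpos : ∀ k < g', 1 ≤ a (i0 + m * k) + b (i0 + m * k) := by
      intro k hk
      have h1 := hcoefP k hk
      rw [hcoeff _ (hlt k hk), hc] at h1
      simp only at h1
      have h2 : η ^ k * Q.coeff i0 ≠ 0 := by
        refine mul_ne_zero (hηk k) ?_
        rw [hi0, coeff_natDegree]
        exact leadingCoeff_ne_zero.2 hQ0
      rw [← h1] at h2
      omega
    have h1 : g' ≤ ∑ k ∈ range g', (a (i0 + m * k) + b (i0 + m * k)) := by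
      calc g' = ∑ k ∈ range g', 1 := by simp
        _ ≤ _ := sum_le_sum fun k hk => hpos k (mem_range.1 hk)
    have h2 : ∑ k ∈ range g', (a (i0 + m * k) + b (i0 + m * k)) ≤ ∑ i ∈ range g, (a i + b i) := by
      have hinj : Function.Injective fun k : ℕ => i0 + m * k := by
        intro x y hxy
        have h3 : i0 + m * x = i0 + m * y := hxy
        exact Nat.eq_of_mul_eq_mul_left (show 0 < m by omega) (by omega)
      rw [← sum_image (f := fun i => a i + b i) (g := fun k : ℕ => i0 + m * k)
        (fun x _ y _ hxy => hinj hxy)]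
      refine sum_le_sum_of_subset ?_
      intro i hi
      obtain ⟨k, hk, rfl⟩ := mem_image.1 hi
      exact mem_range.2 (hlt k (mem_range.1 hk))
    rw [hcard] at hshort
    omega
  intro i hi
  have h1 := hcoeff i hi
  rw [hP0, coeff_zero, hc] at h1
  simp only at h1
  have h2 : a i = b i := by omega
  exact h2

end Pool.Agent.Work.TL
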