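import Pool.Agent.Work.MP_223b32_tl.Interface
import Pool.Agent.Work.MP_223b32_tc_helper28.ONE

/-!
# DATA: the eigenvalues of one curve
-/

namespace Pool.Agent.Work.TL

open Finset Polynomial Pool.Agent.Work.TC

namespace DATA

/-- An automorphism of the ring of algebraic integers permutes the roots of an integral polynomial. -/
lemma aut {N : ℕ} (b : ℕ → ℤ) (β : Fin N → ℂ) (β' : Fin N → AA) (hβ' : ∀ i, (β' i : ℂ) = β i)
    (h : ∏ i, (X - C (β i)) = ∑ m ∈ range (N + 1), C (b m : ℂ) * X ^ (N - m))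
    (τ : AA ≃+* AA) (i : Fin N) : ∃ j, τ (β' i) = β' j := by
  have h1 : ∀ x : AA, ((∑ m ∈ range (N + 1), (b m : AA) * x ^ (N - m) : AA) : ℂ) =
      ∏ j, ((x : ℂ) - β j) := by
    intro x
    have h2 := congrArg (fun P => P.eval (x : ℂ)) h
    simp only [eval_prod, eval_sub, eval_X, eval_C, eval_finsetSum, eval_mul, eval_pow] at h2
    rw [h2]
    push_cast
    rfl
  have h3 : (∑ m ∈ range (N + 1), (b m : AA) * β' i ^ (N - m) : AA) = 0 := by
    apply Subtype.val_injective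
    have h4 := h1 (β' i)
    rw [hβ' i] at h4
    have h5 : ∏ j, (β i - β j) = 0 := Finset.prod_eq_zero (mem_univ i) (sub_self _)
    rw [h5] at h4
    exact h4
  have h6 : (∑ m ∈ range (N + 1), (b m : AA) * (τ (β' i)) ^ (N - m) : AA) = 0 := by
    have h7 := congrArg τ h3
    rw [map_sum, map_zero] at h7
    rw [← h7]
    refine Finset.sum_congr rfl fun m _ => ?_
    rw [map_mul, map_pow, map_intCast]
  have h8 : ∏ j, ((τ (β' i) : ℂ) - β j) = 0 := by
    rw [← h1, h6]
    rfl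
  obtain ⟨j, _, hj⟩ := Finset.prod_eq_zero_iff.1 h8
  refine ⟨j, ?_⟩
  apply Subtype.val_injective
  rw [sub_eq_zero] at hj
  rw [hj, hβ' j]

end DATA

/-- DATA. -/
theorem stmt_DATA (hFROB : Stmt_FROB) (hB4 : Stmt_B4) (hFE : Stmt_FE) (hRED : Stmt_RED)
    (hDSYM : Stmt_DSYM) : Stmt_DATA := by
  classical
  intro F K _ _ _ _ _ _ hF n hn hn2 hfin ρ a ha
  set q := Fintype.card F with hq
  have hn1 : n - 1 + 1 = n := Nat.sub_add_cancel hn.one_le
  have hodd : Odd n := hn.odd_of_ne_two hn2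
  have hNeven : Even (n - 1) := by
    obtain ⟨k, hk⟩ := hodd
    exact ⟨k, by omega⟩
  have hqodd : Odd q := Nat.odd_iff.2 (FiniteField.odd_card_of_char_ne_two hF)
  have hqpos : 0 < q := Fintype.card_pos
  have hKfin : Module.Finite F K := Module.Finite.of_finite
  have hdeg : (minpoly F a).natDegree = Module.finrank F K := by
    have h1 : (minpoly F a).natDegree ∣ Module.finrank F K := minpoly.degree_dvd
      (Algebra.IsIntegral.isIntegral a)
    rw [hfin] at h1 ⊢
    rcases (Nat.dvd_prime hn).1 h1 with h2 | h2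
    · exfalso
      apply ha
      rw [minpoly.natDegree_eq_one_iff] at h2
      exact h2
    · exact h2
  have hfinodd : Odd (Module.finrank F K) := by rw [hfin]; exact hodd
  obtain ⟨β, hβ1, hβ2⟩ := hFROB F K hF hfinodd a hdeg (n - 1) (by rw [hfin, hn1])
  -- functional equation
  have hfe : ∀ j, j ≤ n - 1 → bb F a (n - 1) * bb F a j = (q : ℤ) ^ j * bb F a (n - 1 - j) := by
    intro j hj
    have := hFE F K hF hfinodd a hdeg (n - 1 - j) j (by rw [hfin]; omega)
    rw [Nat.sub_add_cancel hj] at this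
    exact this
  have hbN : bb F a (n - 1) * bb F a (n - 1) = (q : ℤ) ^ (n - 1) := by
    rw [hfe (n - 1) le_rfl, Nat.sub_self, ONE.bb_zero, mul_one]
  have hbNodd : Odd (bb F a (n - 1)) := by
    have h1 : Odd ((q : ℤ) ^ (n - 1)) := by
      have : Odd (q : ℤ) := by exact_mod_cast hqodd
      exact this.pow
    rw [← hbN] at h1
    exact (Int.odd_mul.1 h1).1
  have hbN0 : bb F a (n - 1) ≠ 0 := by
    intro h0
    rw [h0] at hbNodd
    exact absurd hbNodd (by decide)
  -- the bits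
  set r : ℕ → ℕ := fun k => if k = n then (if (q : ℤ) * bb F a (n - 1) ≡ 1 [ZMOD 4] then 0 else 1)
    else dl F a k with hr
  have hrk : ∀ k, k < n → r k = dl F a k := by
    intro k hk
    simp only [hr, if_neg hk.ne]
  have hrec : ∀ m, m < n - 1 → bb F a (m + 1) ≡ q * bb F a m + 2 * r (m + 1) [ZMOD 4] := by
    intro m hm
    have h1 := hB4 F K hF n hn hfin a ha (m + 1) (by omega)
    have h2 := hB4 F K hF n hn hfin a ha m (by omega)
    rw [hrk (m + 1) (by omega)]
    have h3 : (q : ℤ) * bb F a m ≡ q * ((q : ℤ) ^ m + 2 * ∑ k ∈ Icc 1 m, (dl F a k : ℤ))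
        [ZMOD 4] := h2.mul_left _
    have h4 : (q : ℤ) * ((q : ℤ) ^ m + 2 * ∑ k ∈ Icc 1 m, (dl F a k : ℤ)) ≡
        (q : ℤ) ^ (m + 1) + 2 * ∑ k ∈ Icc 1 m, (dl F a k : ℤ) [ZMOD 4] := by
      obtain ⟨u, hu⟩ := hqodd
      refine Int.modEq_iff_dvd.2 ⟨- u * ∑ k ∈ Icc 1 m, (dl F a k : ℤ), ?_⟩
      have hu' : (q : ℤ) = 2 * u + 1 := by exact_mod_cast hu
      rw [pow_succ]
      linear_combination (-2 * ∑ k ∈ Icc 1 m, (dl F a k : ℤ)) * hu'
    have h5 : (q : ℤ) ^ (m + 1) + 2 * ∑ k ∈ Icc 1 (m + 1), (dl F a k : ℤ) =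
        ((q : ℤ) ^ (m + 1) + 2 * ∑ k ∈ Icc 1 m, (dl F a k : ℤ)) + 2 * dl F a (m + 1) := by
      rw [Finset.sum_Icc_succ_top (by omega)]
      ring
    rw [h5] at h1
    exact h1.trans ((h3.trans h4).symm.add_right _)
  have hlast : (q : ℤ) * bb F a (n - 1) ≡ 1 + 2 * r (n - 1 + 1) [ZMOD 4] := by
    rw [hn1]
    have hrn : r n = if (q : ℤ) * bb F a (n - 1) ≡ 1 [ZMOD 4] then 0 else 1 := by
      simp only [hr, if_true]
    rw [hrn]
    split_ifs with h
    · simpa using h
    · have h1 : Odd ((q : ℤ) * bb F a (n - 1)) := by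
        have : Odd (q : ℤ) := by exact_mod_cast hqodd
        exact this.mul hbNodd
      obtain ⟨u, hu⟩ := h1
      rw [hu] at h ⊢
      simp only [Int.ModEq] at h ⊢
      push_cast
      omega
  obtain ⟨β', w, h1, h2, h3, h4, h5⟩ := hRED ρ (n - 1) q hNeven hqodd (bb F a) r (ONE.bb_zero a)
    hrec hlast β hβ1
  rw [hn1] at h2 h3 h4
  have hprod : ∀ i, ∃ j, β i * β j = q := by
    intro i
    set P : ℂ[X] := ∑ m ∈ range (n - 1 + 1), C (bb F a m : ℂ) * X ^ (n - 1 - m) with hP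
    have hPi : P.eval (β i) = 0 := by
      rw [← hβ1, eval_prod]
      exact Finset.prod_eq_zero (mem_univ i) (by simp)
    have hPe : ∀ z : ℂ, P.eval z = ∑ m ∈ range (n - 1 + 1), (bb F a m : ℂ) * z ^ (n - 1 - m) := by
      intro z
      rw [hP, eval_finsetSum]
      simp
    have hβ0 : β i ≠ 0 := by
      intro h0
      rw [hPe, h0, Finset.sum_range_succ, Nat.sub_self, pow_zero, mul_one] at hPi
      have h6 : ∑ m ∈ range (n - 1), (bb F a m : ℂ) * (0 : ℂ) ^ (n - 1 - m) = 0 := by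
        refine Finset.sum_eq_zero fun m hm => ?_
        rw [zero_pow (by have := mem_range.1 hm; omega), mul_zero]
      rw [h6, zero_add] at hPi
      exact hbN0 (by exact_mod_cast hPi)
    have h7 : β i ^ (n - 1) * P.eval ((q : ℂ) / β i) = (bb F a (n - 1) : ℂ) * P.eval (β i) := by
      rw [hPe, hPe, Finset.mul_sum, Finset.mul_sum, ← Finset.sum_range_reflect]
      refine Finset.sum_congr rfl fun m hm => ?_
      have hm' : m ≤ n - 1 := by have := mem_range.1 hm; omega
      have e1 : n - 1 + 1 - 1 - m = n - 1 - m := by omega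
      have e2 : n - 1 - (n - 1 - m) = m := by omega
      rw [e1, e2]
      have e3 : (bb F a (n - 1) : ℂ) * (bb F a m : ℂ) = (q : ℂ) ^ m * (bb F a (n - 1 - m) : ℂ) := by
        exact_mod_cast congrArg (Int.cast : ℤ → ℂ) (hfe m hm')
      rw [← mul_assoc (bb F a (n - 1) : ℂ), e3, div_pow]
      have e4 : β i ^ (n - 1) = β i ^ (n - 1 - m) * β i ^ m := by
        rw [← pow_add, Nat.sub_add_cancel hm']
      rw [e4]
      field_simp
    have h8 : P.eval ((q : ℂ) / β i) = 0 := by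
      rw [hPi, mul_zero] at h7
      exact (mul_eq_zero.1 h7).resolve_left (pow_ne_zero _ hβ0)
    rw [← hβ1, eval_prod] at h8
    obtain ⟨j, _, hj⟩ := Finset.prod_eq_zero_iff.1 h8
    refine ⟨j, ?_⟩
    have h9 : (q : ℂ) / β i = β j := by
      simpa [sub_eq_zero] using hj
    rw [← h9]
    field_simp
  refine ⟨(quadraticChar F (-1) : ℂ), r, β', w, ?_, ?_, h2, h3, h4, h5, ?_, ?_,
    fun k _ hk => hrk k hk, ?_⟩
  · have h8 : (quadraticChar F (-1)) ^ 2 = 1 :=
      quadraticChar_sq_one (neg_ne_zero.2 one_ne_zero)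
    exact_mod_cast congrArg (Int.cast : ℤ → ℂ) h8
  · simp only [h1]
    exact hβ2
  · intro i
    obtain ⟨j, hj⟩ := hprod i
    refine ⟨j, ?_⟩
    apply Subtype.val_injective
    push_cast
    rw [h1, h1, hj]
  · exact fun τ i => DATA.aut (bb F a) β β' h1 hβ1 τ i
  · intro k hk1 hk2
    rw [hrk k hk2, hrk (n - k) (by omega)]
    exact hDSYM F K hF n hn hn2 hfin a ha k hk1 hk2

end Pool.Agent.Work.TL
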