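import Pool.Agent.Work.MP_223b32_tl.Interface2
import Pool.Agent.Work.MP_223b32_tl_helper15.SUML

/-!
# SUMT: the union bound
-/

namespace Pool.Agent.Work.TL

open Finset Polynomial Pool.Agent.Work.MP_223b32_ag Pool.Agent.Work.MP_223b32_ag_56
  Pool.Agent.Work.TC

open SUML in
theorem stmt_SUMT (hGENM : Stmt_GENM) (hONET : Stmt_ONET) (hLINL : Stmt_LINL)
    (hCOUNT : Stmt_COUNT) (hCYC : Stmt_CYC) (hSUMD : Stmt_SUMD) : Stmt_SUMT := by
  intro F K _ _ _ _ _ hF n hn hn2 hfin hGen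
  classical
  obtain ⟨hOrd, hn8, heta⟩ := hGENM n hn hn2 hGen
  have hn3 : 3 ≤ n := by
    have := hn.two_le
    omega
  set m := orderOf (2 : ZMod n) with hmdef
  set A : ℝ := (Nat.card {a : K // a ∉ (algebraMap F K).range} : ℝ) with hA
  have hA0 : 0 ≤ A := Nat.cast_nonneg _
  have hm0 : m ≠ 0 := by
    have hfact : Fact n.Prime := ⟨hn⟩
    rw [hmdef, orderOf_ne_zero_iff, isOfFinOrder_iff_pow_eq_one]
    refine ⟨n - 1, by omega, ?_⟩
    refine ZMod.pow_card_sub_one_eq_one ?_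
    intro h
    have h2 : ((2 : ℕ) : ZMod n) = 0 := by exact_mod_cast h
    rw [ZMod.natCast_eq_zero_iff] at h2
    have := Nat.le_of_dvd (by norm_num) h2
    omega
  let iG : Fintype (GaloisField 2 m) := Fintype.ofFinite _
  have hG : Fintype.card (GaloisField 2 m) = 2 ^ m := by
    rw [← Nat.card_eq_fintype_card]
    exact GaloisField.card 2 m hm0
  obtain ⟨ξ, hξ1, hξ2⟩ := exists_root hn hG
  obtain ⟨c', hc'⟩ := hONET F K hF n hn hn2 hfin hOrd hn8 heta (GaloisField 2 m) ξ hξ1 hξ2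
  have heta1 : eta n = 1 ∨ eta n = -1 := by
    unfold eta
    split_ifs
    · exact Or.inl rfl
    · exact Or.inr rfl
  obtain ⟨hC1, -⟩ := hCYC (n / 2) (eta n) (by omega) heta1
  let S : ℕ → Finset K := fun d =>
    Finset.univ.filter fun a => a ∉ (algebraMap F K).range ∧
      ∑ k ∈ Icc 1 (n / 2), (dl F a k : GaloisField 2 m) *
        cc n (JJ (n / 2) (Psi (n / 2) (eta n) d) ξ) k = c' d
  have hS : ∀ d ∈ (DD (n / 2) (eta n)).erase (d0 n),
      ((S d).card : ℝ) ≤ 9 * (2 : ℝ) ^ (-(d.totient : ℝ) / 2) * A := by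
    intro d hd
    obtain ⟨hdd, hd⟩ := Finset.mem_erase.1 hd
    have h2d := two_lt hn8 hn3 hd hdd
    obtain ⟨-, hmon, hdeg⟩ := hC1 d hd
    have hev := Nat.totient_even h2d
    have hpos : 0 < d.totient := Nat.totient_pos.2 (by omega)
    obtain ⟨t, ht⟩ := hev
    have ht' : d.totient = 2 * t := by omega
    have hcardS : ((S d).card : ℝ) ≤ A := by
      rw [hA, Nat.card_eq_fintype_card, Fintype.card_subtype]
      have hsub : (S d).card ≤
          (Finset.univ.filter fun a : K => a ∉ (algebraMap F K).range).card := by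
        refine Finset.card_le_card fun a ha => ?_
        obtain ⟨-, h1, -⟩ := Finset.mem_filter.1 ha
        exact Finset.mem_filter.2 ⟨Finset.mem_univ _, h1⟩
      exact_mod_cast hsub
    rw [ht', rpow_half]
    rcases le_or_gt 2 t with h2 | h2
    · obtain ⟨-, hlin⟩ := hLINL (GaloisField 2 m) n m hn hn2 hOrd rfl hG ξ hξ1 hξ2
        (Psi (n / 2) (eta n) d) d.totient hmon hdeg hpos
      have h := hCOUNT F K hF n hn hn2 hfin (GaloisField 2 m) m d.totient
        (cc n (JJ (n / 2) (Psi (n / 2) (eta n) d) ξ)) (c' d) hG hlin t h2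
      have e : Nat.card {a : K // a ∉ (algebraMap F K).range ∧
          ∑ k ∈ Icc 1 (n / 2), (dl F a k : GaloisField 2 m) *
            cc n (JJ (n / 2) (Psi (n / 2) (eta n) d) ξ) k = c' d} = (S d).card := by
        rw [Nat.card_eq_fintype_card, Fintype.card_subtype]
      rw [e, ht'] at h
      have hout := SUM.card_out (K := K) hF hn3 hfin
      rw [← hA] at hout
      have hnum := numeric h2
      have hq0 : (0 : ℝ) ≤ (Fintype.card F : ℝ) ^ n := by positivity
      have hp : (0 : ℝ) < (1 / 2 : ℝ) ^ t := by positivity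
      calc ((S d).card : ℝ) ≤
            (Fintype.card F : ℝ) ^ n * (2 ^ (t + 1) / 2 ^ (2 * t) + 12 / 3 ^ t) := h
        _ ≤ (Fintype.card F : ℝ) ^ n * (8 * (1 / 2) ^ t) :=
            mul_le_mul_of_nonneg_left hnum hq0
        _ ≤ 9 / 8 * A * (8 * (1 / 2) ^ t) :=
            mul_le_mul_of_nonneg_right hout (by positivity)
        _ = 9 * (1 / 2) ^ t * A := by ring
    · have h1 : t = 1 := by omega
      subst h1
      refine hcardS.trans ?_
      norm_num
      nlinarith
  have hbad : Nat.card {a : K // a ∉ (algebraMap F K).range ∧ BadT F n a} ≤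
      ∑ d ∈ (DD (n / 2) (eta n)).erase (d0 n), (S d).card := by
    rw [Nat.card_eq_fintype_card, Fintype.card_subtype]
    refine le_trans (Finset.card_le_card ?_) Finset.card_biUnion_le
    intro a ha
    obtain ⟨-, ha1, ha2⟩ := Finset.mem_filter.1 ha
    obtain ⟨d, hd1, hd2, hd3⟩ := hc' a ha1 ha2
    exact Finset.mem_biUnion.2 ⟨d, Finset.mem_erase.2 ⟨hd2, hd1⟩,
      Finset.mem_filter.2 ⟨Finset.mem_univ _, ha1, hd3⟩⟩
  calc (Nat.card {a : K // a ∉ (algebraMap F K).range ∧ BadT F n a} : ℝ) ≤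
        ∑ d ∈ (DD (n / 2) (eta n)).erase (d0 n), ((S d).card : ℝ) := by exact_mod_cast hbad
    _ ≤ ∑ d ∈ (DD (n / 2) (eta n)).erase (d0 n),
          9 * (2 : ℝ) ^ (-(d.totient : ℝ) / 2) * A := Finset.sum_le_sum hS
    _ = 9 * (∑ d ∈ (DD (n / 2) (eta n)).erase (d0 n),
          (2 : ℝ) ^ (-(d.totient : ℝ) / 2)) * A := by
        rw [← Finset.sum_mul, ← Finset.mul_sum]
    _ ≤ _ := by
        have h := hSUMD n hn8 hn3
        refine mul_le_mul_of_nonneg_right ?_ hA0
        linarith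

end Pool.Agent.Work.TL
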