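import Pool.Agent.Work.MP_223b32_tl.Interface

/-!
# TAU: an automorphism which changes the sign of `√q`
-/

namespace Pool.Agent.Work.TL

open Polynomial

namespace TAU

/-- The field of algebraic numbers. -/
noncomputable abbrev QQ : IntermediateField ℚ ℂ := algebraicClosure ℚ ℂ

lemma mem_QQ (x : AA) : (x : ℂ) ∈ QQ := by
  rw [mem_algebraicClosure_iff]
  exact (x.2.tower_top (A := ℚ)).isAlgebraic

/-- an algebraic integer as an algebraic number -/
noncomputable def up (x : AA) : QQ := ⟨(x : ℂ), mem_QQ x⟩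

lemma isIntegral_map (σ : QQ ≃ₐ[ℚ] QQ) (x : AA) : IsIntegral ℤ ((σ (up x) : QQ) : ℂ) := by
  have h1 : IsIntegral ℤ (up x) := by
    have h2 : IsIntegral ℤ ((up x : QQ) : ℂ) := x.2
    exact (isIntegral_algHom_iff (QQ.val.restrictScalars ℤ) Subtype.val_injective).1 h2
  have h3 : IsIntegral ℤ (σ (up x)) := h1.map (σ.toAlgHom.restrictScalars ℤ)
  exact h3.map (QQ.val.restrictScalars ℤ)

/-- the action of an automorphism on the algebraic integers -/
noncomputable def act (σ : QQ ≃ₐ[ℚ] QQ) (x : AA) : AA := ⟨((σ (up x) : QQ) : ℂ), isIntegral_map σ x⟩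

lemma up_act (σ : QQ ≃ₐ[ℚ] QQ) (x : AA) : up (act σ x) = σ (up x) := rfl

lemma up_inj {x y : AA} (h : up x = up y) : x = y := by
  apply Subtype.ext
  exact congrArg (fun z : QQ => (z : ℂ)) h

lemma up_add (x y : AA) : up (x + y) = up x + up y := rfl

lemma up_mul (x y : AA) : up (x * y) = up x * up y := rfl

lemma up_neg (x : AA) : up (-x) = -up x := rfl

/-- the automorphism of the ring of algebraic integers -/
noncomputable def restr (σ : QQ ≃ₐ[ℚ] QQ) : AA ≃+* AA where
  toFun := act σ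
  invFun := act σ.symm
  left_inv x := up_inj (by rw [up_act, up_act, AlgEquiv.symm_apply_apply])
  right_inv x := up_inj (by rw [up_act, up_act, AlgEquiv.apply_symm_apply])
  map_mul' x y := up_inj (by rw [up_act, up_mul, up_mul, map_mul, up_act, up_act])
  map_add' x y := up_inj (by rw [up_act, up_add, up_add, map_add, up_act, up_act])

end TAU

theorem stmt_TAU : Stmt_TAU := by
  intro q hq s hs
  have hnormal : Normal ℚ TAU.QQ := by
    have h := algebraicClosure.isAlgClosure ℚ ℂ
    have h2 : IsAlgClosed TAU.QQ := h.isAlgClosed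
    have h3 : Algebra.IsAlgebraic ℚ TAU.QQ := algebraicClosure.isAlgebraic ℚ ℂ
    exact { toIsAlgebraic := h3, splits' := fun _ => IsAlgClosed.splits _ }
  have hsq : (TAU.up s) ^ 2 = (q : TAU.QQ) := by
    have h1 : TAU.up (s ^ 2) = (q : TAU.QQ) := by
      rw [hs]
      rfl
    exact h1
  have hmin : ∀ z : TAU.QQ, z ^ 2 = (q : TAU.QQ) → minpoly ℚ z = X ^ 2 - C (q : ℚ) := by
    intro z hz
    have hirr : Irreducible (X ^ 2 - C (q : ℚ)) := by
      rw [X_pow_sub_C_irreducible_iff_of_prime Nat.prime_two]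
      intro b hb
      apply hq
      have h1 : IsSquare (q : ℚ) := ⟨b, by rw [← hb, pow_two]⟩
      exact Rat.isSquare_natCast_iff.1 h1
    refine (minpoly.eq_of_irreducible_of_monic hirr ?_ (monic_X_pow_sub_C _ two_ne_zero)).symm
    simp [hz]
  have hconj : IsConjRoot ℚ (TAU.up s) (-TAU.up s) := by
    unfold IsConjRoot
    rw [hmin _ hsq, hmin _ (by rw [neg_sq]; exact hsq)]
  obtain ⟨σ, hσ⟩ := hconj.exists_algEquiv
  refine ⟨TAU.restr σ.symm, TAU.up_inj ?_⟩
  show σ.symm (TAU.up s) = -TAU.up s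
  rw [AlgEquiv.symm_apply_eq, hσ]

end Pool.Agent.Work.TL
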