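import Pool.Agent.Work.MP_223b32_tc.FLA
import Pool.Agent.Work.MP_223b32_tc.MOD8
import Pool.Agent.Work.MP_223b32_tc_h25.FROB
import Pool.Agent.Work.MP_223b32_tc_h25.RED
import Pool.Agent.Work.MP_223b32_tc_helper10.EP
import Pool.Agent.Work.MP_223b32_tc_helper10.PC
import Pool.Agent.Work.MP_223b32_tc_helper15.COUNT
import Pool.Agent.Work.MP_223b32_tc_helper15.FE
import Pool.Agent.Work.MP_223b32_tc_helper28.CHS
import Pool.Agent.Work.MP_223b32_tc_helper28.EXI
import Pool.Agent.Work.MP_223b32_tc_helper28.NV
import Pool.Agent.Work.MP_223b32_tc_helper39.WEIL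
import Pool.Agent.Work.MP_223b32_tc_helper44.NA
import Pool.Agent.Work.MP_223b32_tc_helper50.B0
import Pool.Agent.Work.MP_223b32_tc_helper50.RHO
import Pool.Agent.Work.MP_223b32_tc_helper52.NW
import Pool.Agent.Work.MP_223b32_tc_helper54.B4
import Pool.Agent.Work.MP_223b32_tc_helper65.LE
import Pool.Agent.Work.MP_223b32_tc_helper65.RU
import Pool.Agent.Work.MP_223b32_tc_helper76.ROOTS
import Pool.Agent.Work.MP_223b32_tc_helper82.DSYM
import Pool.Agent.Work.MP_223b32_tc_helper82.EXT
import Pool.Agent.Work.MP_223b32_tc_helper83.MOORE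
import Pool.Agent.Work.MP_223b32_tc_helper88.SQF
import Pool.Agent.Work.MP_223b32_tc_helper88.STAR
import Pool.Agent.Work.MP_223b32_tc_helper94.HD
import Pool.Agent.Work.MP_223b32_tl_helper23.CYC
import Pool.Agent.Work.MP_223b32_tl_helper23.DESC
import Pool.Agent.Work.MP_223b32_tl_helper28.ALGT
import Pool.Agent.Work.MP_223b32_tl_helper28.BALT
import Pool.Agent.Work.MP_223b32_tl_helper28.DATA
import Pool.Agent.Work.MP_223b32_tl_helper28.FA
import Pool.Agent.Work.MP_223b32_tl_helper28.MAINT
import Pool.Agent.Work.MP_223b32_tl_helper28.ONET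
import Pool.Agent.Work.MP_223b32_tl_helper28.SUMT
import Pool.Agent.Work.MP_223b32_tl_helper28.TAU
import Pool.Agent.Work.MP_223b32_tl_helper29.DIV
import Pool.Agent.Work.MP_223b32_tl_helper29.TR
import Pool.Agent.Work.MP_223b32_tl_helper34.BAL
import Pool.Agent.Work.MP_223b32_tl_helper34.FO
import Pool.Agent.Work.MP_223b32_tl_helper50.GENM
import Pool.Agent.Work.MP_223b32_tl_helper50.ORBX
import Pool.Agent.Work.MP_223b32_tl_helper59.ALG
import Pool.Agent.Work.MP_223b32_tl_helper59.LAST
import Pool.Agent.Work.MP_223b32_tl_helper64.ID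
import Pool.Agent.Work.MP_223b32_tl_helper92.LINL

/-!
# The analytic Tate conjecture for all powers, in all codimensions, of hyperelliptic curves over a
fixed finite field

`F` is ANY finite field of odd characteristic, with `q` elements, `n = 2 g + 1` a prime such that `2`
and `-1` generate the group of units modulo `n`, `f` a monic irreducible polynomial of degree `n`
over `F`, `C` the hyperelliptic curve `y ^ 2 = f(x)` of genus `g`. If `q` is not a square and
`q ≠ n` modulo `8`, then for all but a proportion `9 ∑ 2 ^ (- φ(e) / 2)` (`e > 1` odd, `e ∣ g`) of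
the `f` there is no nontrivial multiplicative relation at all between the Frobenius eigenvalues of
`C` and `√q`: so the analytic Tate conjecture holds for all powers of the Jacobian of `C` (times
supersingular abelian varieties) in ALL codimensions over all finite extensions of `F`. If `q` is a
square or `q = n` modulo `8`, this holds in codimension less than `g' / 2`, `g'` the odd part of `g`.

Idea of the proof.

* As in `HyperellipticTimesAny`, the `L`-polynomial modulo `4` is given by bits `δ_k` (formula of Moore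
  and Carlitz), and a multiplicative relation gives a linear relation of the numbers
  `Z(ζ) + Z(ζ) ^ 2` in a field of characteristic `2`.
* Let `σ` be a Frobenius automorphism above `2`. It permutes the pairs of conjugate eigenvalues
  cyclically, and the relations form a saturated ideal of `ℤ[X] / (X ^ g ± 1)`. If it is not zero, it
  contains `(X ^ g ± 1) / Φ_d` for a `d`. For each `d` this is a system of at least `φ(d)` independent
  linear conditions for the bits, which has probability about `2 ^ (- φ(d) / 2)` by a Weil bound.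
* The last `d` (`1`, `2` or `4`) is excluded by identities for traces in characteristic `2` if `q` is
  not `1` modulo `8` and by descent (an automorphism which changes the sign of `√q`) if it is.
-/

namespace Pool.Agent.Work.MP_223b32_tl_helper28.GENERIC

open Finset Polynomial Pool.Agent.Work.TC Pool.Agent.Work.TL

theorem generic :
    ∀ (F : Type) [Field F] [Fintype F], ringChar F ≠ 2 →
      -- `n` is an odd prime such that `2` and `-1` generate the group of units modulo `n`
      ∀ n : ℕ, n.Prime → n ≠ 2 → (∀ x : ZMod n, x ≠ 0 → ∃ k : ℕ, x = 2 ^ k ∨ x = -2 ^ k) →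
        ((exceptions F n).ncard : ℝ) ≤
          9 * (∑ e ∈ (n / 2).divisors.filter (fun e => Odd e ∧ 1 < e),
            (2 : ℝ) ^ (-(e.totient : ℝ) / 2)) * ((irr F n).ncard : ℝ) := by
  have hNA : Stmt_NA := stmt_NA stmt_NV (stmt_EXI stmt_HD)
  have hCHS : Stmt_CHS := stmt_CHS (stmt_WEIL hNA) stmt_SQF
  have hFROB : Stmt_FROB := stmt_FROB stmt_B0 stmt_EP stmt_LE stmt_PC stmt_NW
  have hDATA : Stmt_DATA := stmt_DATA hFROB (stmt_B4 stmt_MOORE) stmt_FE stmt_RED stmt_DSYM
  have hFO : Stmt_FO := stmt_FO stmt_RU
  have hLAST : Stmt_LAST := stmt_LAST hFO stmt_TR (stmt_DESC stmt_TAU stmt_RU)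
  have hALG : Stmt_ALG := stmt_ALG stmt_ID stmt_DIV stmt_CYC hLAST stmt_BAL
  have hALGT : Stmt_ALGT := stmt_ALGT stmt_ID stmt_DIV stmt_CYC hALG stmt_BALT stmt_PSI0
  have hONET : Stmt_ONET := stmt_ONET stmt_RHO stmt_FA hDATA stmt_ORBX hALGT stmt_CYC hFO stmt_STAR
    stmt_FLA
  have hSUMT : Stmt_SUMT := stmt_SUMT stmt_GENM hONET stmt_LINL (stmt_COUNT hCHS) stmt_CYC
    stmt_SUMD
  intro F _ _ hF n hn hn2 hgen
  exact main_boundT hSUMT stmt_EXT stmt_ROOTS F hF n hn hn2 hgen

end Pool.Agent.Work.MP_223b32_tl_helper28.GENERIC
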