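import Pool.Agent.Work.MP_223b32_tl.Interface2
import Pool.Agent.Work.MP_223b32_tl_helper28.ONEL

/-!
# ONET: a bad element satisfies one of the linear conditions
-/

namespace Pool.Agent.Work.TL

open Finset Polynomial Pool.Agent.Work.TC

/-- ONET. -/
theorem stmt_ONET (hRHO : Stmt_RHO) (hFA : Stmt_FA) (hDATA : Stmt_DATA) (hORBX : Stmt_ORBX)
    (hALGT : Stmt_ALGT) (hCYC : Stmt_CYC) (hFO : Stmt_FO) (hSTAR : Stmt_STAR) (hFLA : Stmt_FLA) :
    Stmt_ONET := by
  classical
  intro F K _ _ _ _ _ _ hF n hn hn2 hfin hord hn8 hη G _ _ _ _ ξ hξ hξ1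
  obtain ⟨ρ⟩ := hRHO
  obtain ⟨σ, hσ⟩ := hFA ρ
  have hodd : Odd n := hn.odd_of_ne_two hn2
  have hn2' : 2 * (n / 2) + 1 = n := by
    obtain ⟨k, hk⟩ := hodd
    omega
  have hn3 : 3 ≤ n := by
    have := hn.two_le
    omega
  have hg1 : 1 ≤ n / 2 := by omega
  set q := Fintype.card F with hq
  have hqodd : Odd q := Nat.odd_iff.2 (FiniteField.odd_card_of_char_ne_two hF)
  have hq1 : 1 < q := Fintype.one_lt_card
  have hq0 : (q : ℂ) ≠ 0 := by
    have : q ≠ 0 := by omega
    exact_mod_cast this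
  have hηpm : eta n = 1 ∨ eta n = -1 := by
    unfold eta
    split_ifs
    · exact Or.inl rfl
    · exact Or.inr rfl
  have hGalg : Algebra.IsAlgebraic (ZMod 2) G := by
    have : Module.Finite (ZMod 2) G := Module.Finite.of_finite
    infer_instance
  set ι : G →ₐ[ZMod 2] Om := IsAlgClosed.lift with hι
  have hιinj : Function.Injective ι := ι.toRingHom.injective
  set g := n / 2 with hg
  refine ⟨fun d => ((((range g).filter fun i => Odd ((Psi g (eta n) d).coeff i)).card *
    kap (q ^ n) : ℕ) : G) + (eps q : G) * ∑ ζ ∈ JJ g (Psi g (eta n) d) ξ,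
      ∑ k ∈ Icc 1 g, (ζ ^ k + ζ ^ (2 * k)), ?_⟩
  intro a ha hbad
  obtain ⟨c, r, β', w', hc, hfrob, h1, h2, h3, h4, h5, h6, h7, h8⟩ :=
    hDATA F K hF n hn hn2 hfin ρ a ha
  have hζn : (ι ξ) ^ n = 1 := by rw [← map_pow, hξ, map_one]
  have hζ1 : ι ξ ≠ 1 := fun h => hξ1 (hιinj (by rw [h, map_one]))
  obtain ⟨al, be, w, v, horb, hall⟩ := hORBX ρ σ hσ n q hn hn2 hqodd hord (eta n) hηpm hη r β' w'
    h1 h2 h3 h4 h5 h6 h8 (ι ξ) hζn hζ1
  rcases hALGT n g q ρ σ r (ι ξ) al be w v horb hn8 with hA | hA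
  · obtain ⟨d, hd, hd0, hrel⟩ := hA
    refine ⟨d, hd, hd0, ?_⟩
    obtain ⟨hC1, hC2, hC3⟩ := (hCYC g (eta n) hg1 hηpm).1 d hd
    have hdeg : (Psi g (eta n) d).natDegree < g := by
      have hdpos : 0 < d := by
        unfold DD at hd
        split_ifs at hd
        · exact Nat.pos_of_mem_divisors hd
        · exact Nat.pos_of_mem_divisors (mem_filter.1 hd).1
      have := Nat.totient_pos.2 hdpos
      omega
    have h9 := hFO n g (eta n) q ρ σ r (ι ξ) al be w v horb (Psi g (eta n) d) hdeg hrel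
    set P := Psi g (eta n) d with hP
    set S := (range g).filter fun i => Odd (P.coeff i) with hS
    have hJmap : JJ g P (ι ξ) = (JJ g P ξ).map ⟨ι, hιinj⟩ := by
      unfold JJ
      rw [map_eq_image, image_image]
      refine image_congr fun i _ => ?_
      simp
    have hJsum : ∀ f : Om → Om, ∑ ζ ∈ JJ g P (ι ξ), f ζ = ∑ i ∈ S, f ((ι ξ) ^ 2 ^ i) := by
      intro f
      unfold JJ
      rw [sum_image]
      intro i hi j hj hij
      have hi' : i < n / 2 := mem_range.1 (mem_filter.1 hi).1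
      have hj' : j < n / 2 := mem_range.1 (mem_filter.1 hj).1
      exact (ONEL.pow_two_inj hn hn2 hord hζn hζ1 hi' hj').1 hij
    have hadm : Adm (2 * g + 1) (JJ g P (ι ξ)) := by
      intro ζ hζ
      obtain ⟨i, hi, rfl⟩ := mem_image.1 hζ
      have hi' : i < n / 2 := mem_range.1 (mem_filter.1 hi).1
      refine ⟨?_, ?_, ?_⟩
      · rw [hn2', ← pow_mul, mul_comm, pow_mul, hζn, one_pow]
      · intro h
        have h10 : n ∣ 2 ^ i := by
          rw [← orderOf_eq_prime (p := n) (hp := ⟨hn⟩) hζn hζ1]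
          exact orderOf_dvd_of_pow_eq_one h
        exact hn2 ((Nat.prime_dvd_prime_iff_eq hn Nat.prime_two).1 (hn.dvd_of_dvd_pow h10))
      · intro h
        obtain ⟨j, hj, hij⟩ := mem_image.1 h
        have hj' : j < n / 2 := mem_range.1 (mem_filter.1 hj).1
        apply (ONEL.pow_two_inj hn hn2 hord hζn hζ1 hi' hj').2
        rw [hij, mul_inv_cancel₀]
        exact pow_ne_zero _ (fun h0 => by rw [h0, zero_pow hn.ne_zero] at hζn; exact zero_ne_one hζn)
    have hstar := hSTAR Om g (eps q) r ?_ (JJ g P (ι ξ)) hadm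
    · rw [hn2', hJsum] at hstar
      have h10 : ∀ i ∈ S, ZZ n r ((ι ξ) ^ 2 ^ i) + ZZ n r ((ι ξ) ^ 2 ^ i) ^ 2 =
          ρ (w i) + ρ (w i) ^ 2 := fun i _ => by rw [horb.red_w]
      rw [sum_congr rfl h10, h9] at hstar
      have hcc : ∀ k, cc n (JJ g P (ι ξ)) k = ι (cc n (JJ g P ξ) k) := by
        intro k
        rw [hJmap]
        simp [cc, Finset.sum_map]
      have hee : ∑ ζ ∈ JJ g P (ι ξ), ∑ k ∈ Icc 1 g, (ζ ^ k + ζ ^ (2 * k)) =
          ι (∑ ζ ∈ JJ g P ξ, ∑ k ∈ Icc 1 g, (ζ ^ k + ζ ^ (2 * k))) := by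
        rw [hJmap]
        simp [Finset.sum_map]
      have hr : ∑ k ∈ Icc 1 g, (r k : Om) * cc n (JJ g P (ι ξ)) k =
          ι (∑ k ∈ Icc 1 g, (dl F a k : G) * cc n (JJ g P ξ) k) := by
        rw [map_sum]
        refine sum_congr rfl fun k hk => ?_
        rw [hcc, map_mul, map_natCast, h7 k (mem_Icc.1 hk).1 (by have := (mem_Icc.1 hk).2; omega)]
      rw [hr, hee] at hstar
      apply hιinj
      rw [map_add, map_natCast, map_mul, map_natCast, hstar, add_assoc, CharTwo.add_self_eq_zero,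
        add_zero]
    · intro k hk1 hk2
      rw [hn2']
      exact h8 k hk1 (by omega)
  · -- no relations: contradiction
    exfalso
    apply hbad
    refine ⟨fun i => c * (β' i : ℂ), hfrob, ?_⟩
    intro V _ _ _ Φ hΦ k hk hev j hj
    have hc0 : c ≠ 0 := by
      intro h0
      rw [h0] at hc
      norm_num at hc
    refine hFLA V Φ hΦ q hq1 (fun μ => ∃ i, μ = c * (β' i : ℂ)) j ?_ k hk hev j le_rfl
    intro s hs hsJ M hM hsM z hz
    obtain ⟨i0, rfl⟩ := hz
    have hinj : Function.Injective fun z : ℂ => c * z := fun x y hxy => mul_left_cancel₀ hc0 hxy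
    have hcc : ∀ z : ℂ, c * (c * z) = z := fun z => by
      rw [← mul_assoc, ← pow_two, hc, one_mul]
    have hbe : ∀ i, (be i : ℂ) = (q : ℂ) / al i := by
      intro i
      have h10 : (al i : ℂ) * (be i : ℂ) = q := by
        have := congrArg (fun x : AA => (x : ℂ)) (horb.mul i)
        simpa using this
      have h11 : (al i : ℂ) ≠ 0 := fun h0 => by rw [h0, zero_mul] at h10; exact hq0 h10.symm
      rw [← h10]
      field_simp
    have hal : ∀ i, (al i : ℂ) = (q : ℂ) / be i := by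
      intro i
      have h10 : (al i : ℂ) * (be i : ℂ) = q := by
        have := congrArg (fun x : AA => (x : ℂ)) (horb.mul i)
        simpa using this
      have h11 : (be i : ℂ) ≠ 0 := fun h0 => by rw [h0, mul_zero] at h10; exact hq0 h10.symm
      rw [← h10]
      field_simp
    have h10 := hA (s.map fun z => c * z) ?_ M hM ?_ ?_
    · have e2 : (q : ℂ) / (c * (β' i0 : ℂ)) = c * ((q : ℂ) / β' i0) := by
        have : (1 : ℂ) / c = c := by
          rw [div_eq_iff hc0, ← pow_two, hc]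
        rw [mul_comm c, ← div_div, div_eq_mul_one_div _ c, this, mul_comm]
      rw [e2]
      have e3 : ∀ z : ℂ, s.count (c * z) = (s.map fun z => c * z).count z := by
        intro z
        conv_rhs => rw [← hcc z]
        exact (Multiset.count_map_eq_count' _ _ hinj _).symm
      rw [e3, e3]
      obtain ⟨i, hi, hi' | hi'⟩ := hall i0
      · rw [hi', ← hbe]
        exact (h10 i hi).symm
      · rw [hi', ← hal]
        exact h10 i hi
    · intro z hz
      obtain ⟨y, hy, rfl⟩ := Multiset.mem_map.1 hz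
      obtain ⟨i, rfl⟩ := hs y hy
      obtain ⟨i', hi', hi''⟩ := hall i
      refine ⟨i', hi', ?_⟩
      rw [hcc]
      rcases hi'' with h11 | h11
      · exact Or.inl (by rw [h11])
      · exact Or.inr (by rw [h11])
    · rw [Multiset.prod_map_mul, Multiset.map_const', Multiset.prod_replicate, Multiset.map_id',
        Multiset.card_map, mul_pow, ← pow_mul, hsM]
      have e4 : s.card * (2 * M) = 2 * (s.card * M) := by ring
      rw [e4, pow_mul, hc, one_pow, one_mul]
    · rw [Multiset.card_map]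
      rcases hj with hj | hj
      · exact Or.inl (lt_of_le_of_lt hsJ hj)
      · exact Or.inr hj

end Pool.Agent.Work.TL
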